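import Mathlib

/-!
Entire functions with prescribed values at the natural numbers.
-/

set_option autoImplicit false

namespace Pool.Agent.Q184.Interp

open Finset

/-- `∏_{j < n} (z - j)`. -/
noncomputable def Q (n : ℕ) (z : ℂ) : ℂ := ∏ j ∈ range n, (z - j)

theorem Q_diff (n : ℕ) : Differentiable ℂ (Q n) := by
  unfold Q
  fun_prop

theorem Q_zero {n m : ℕ} (h : m < n) : Q n m = 0 := by
  unfold Q
  apply prod_eq_zero (mem_range.mpr h)
  simp

theorem Q_ne (n : ℕ) : Q n n ≠ 0 := by
  unfold Q
  rw [prod_ne_zero_iff]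
  intro j hj
  rw [mem_range] at hj
  rw [sub_ne_zero]
  exact_mod_cast hj.ne'

theorem Q_bound (n : ℕ) (z : ℂ) (hz : ‖z‖ ≤ n) : ‖Q n z‖ ≤ (2 * n) ^ n := by
  unfold Q
  rw [norm_prod]
  calc ∏ j ∈ range n, ‖z - (j : ℂ)‖ ≤ ∏ _j ∈ range n, (2 * n : ℝ) := by
        apply prod_le_prod
        · intro j _; exact norm_nonneg _
        · intro j hj
          rw [mem_range] at hj
          have h1 : ‖(j : ℂ)‖ = j := by simp
          have h2 : (j : ℝ) ≤ n := by exact_mod_cast hj.le
          calc ‖z - (j : ℂ)‖ ≤ ‖z‖ + ‖(j : ℂ)‖ := norm_sub_le _ _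
            _ ≤ 2 * n := by rw [h1]; linarith
    _ = (2 * n) ^ n := by simp

/-- For each constant there is an exponent making the term small. -/
theorem exists_exp (c : ℂ) (n : ℕ) : ∃ k : ℕ, ‖c‖ * (2 * n) ^ n * Real.exp (-(k : ℝ)) ≤ (1 / 2) ^ n := by
  have h : Filter.Tendsto (fun k : ℕ => ‖c‖ * (2 * n) ^ n * Real.exp (-(k : ℝ))) Filter.atTop
      (nhds (‖c‖ * (2 * n) ^ n * 0)) := by
    apply Filter.Tendsto.const_mul
    exact Real.tendsto_exp_neg_atTop_nhds_zero.comp tendsto_natCast_atTop_atTop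
  rw [mul_zero] at h
  have h2 := h.eventually (gt_mem_nhds (show (0 : ℝ) < (1 / 2) ^ n by positivity))
  obtain ⟨k, hk⟩ := h2.exists
  exact ⟨k, hk.le⟩

/-- the exponent -/
noncomputable def ke (c : ℂ) (n : ℕ) : ℕ := (exists_exp c n).choose

theorem ke_spec (c : ℂ) (n : ℕ) :
    ‖c‖ * (2 * n) ^ n * Real.exp (-(ke c n : ℝ)) ≤ (1 / 2) ^ n := (exists_exp c n).choose_spec

/-- the new term with coefficient `c` -/
noncomputable def term (c : ℂ) (n : ℕ) (z : ℂ) : ℂ :=
  c * Q n z * Complex.exp ((ke c n : ℂ) * (z - n))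

theorem term_diff (c : ℂ) (n : ℕ) : Differentiable ℂ (term c n) := by
  unfold term
  have := Q_diff n
  fun_prop

theorem term_zero (c : ℂ) {n m : ℕ} (h : m < n) : term c n m = 0 := by
  unfold term
  rw [Q_zero h]
  simp

theorem term_self (c : ℂ) (n : ℕ) : term c n n = c * Q n n := by
  unfold term
  simp

theorem term_bound (c : ℂ) (n : ℕ) (z : ℂ) (hz : ‖z‖ + 1 ≤ n) : ‖term c n z‖ ≤ (1 / 2) ^ n := by
  refine le_trans ?_ (ke_spec c n)
  unfold term
  rw [norm_mul, norm_mul, Complex.norm_exp]
  have h1 := Q_bound n z (by linarith)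
  have h2 : ((ke c n : ℂ) * (z - n)).re ≤ -(ke c n : ℝ) := by
    have h3 : ((ke c n : ℂ) * (z - n)).re = (ke c n : ℝ) * (z.re - n) := by
      simp
    rw [h3]
    have h4 : z.re ≤ ‖z‖ := Complex.re_le_norm z
    have h5 : (0 : ℝ) ≤ ke c n := by positivity
    nlinarith
  have h3 := Real.exp_le_exp.mpr h2
  gcongr

/-- partial sums -/
noncomputable def S (a : ℕ → ℂ) : ℕ → ℂ → ℂ
  | 0 => fun _ => 0
  | n + 1 => fun z => S a n z + term ((a n - S a n n) / Q n n) n z

/-- the coefficient -/
noncomputable def co (a : ℕ → ℂ) (n : ℕ) : ℂ := (a n - S a n n) / Q n n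

theorem S_eq (a : ℕ → ℂ) (n : ℕ) (z : ℂ) : S a n z = ∑ m ∈ range n, term (co a m) m z := by
  induction n with
  | zero => rfl
  | succ n ih =>
    rw [sum_range_succ, ← ih]
    rfl

/-- There is an entire function with prescribed values at the natural numbers. -/
theorem exists_interp (a : ℕ → ℂ) : ∃ h : ℂ → ℂ, Differentiable ℂ h ∧ ∀ n : ℕ, h n = a n := by
  refine ⟨fun z => ∑' n, term (co a n) n z, ?_, ?_⟩
  · intro z
    obtain ⟨N, hN⟩ := exists_nat_ge (‖z‖ + 2)
    -- bound for the first terms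
    have hbd : ∀ n : ℕ, ∃ C : ℝ, ∀ w ∈ Metric.closedBall (0 : ℂ) N, ‖term (co a n) n w‖ ≤ C := by
      intro n
      exact (isCompact_closedBall (0 : ℂ) N).exists_bound_of_continuousOn
        (term_diff (co a n) n).continuous.continuousOn
    choose C hC using hbd
    let u : ℕ → ℝ := fun n => if n < N + 1 then C n else (1 / 2) ^ n
    have hu : Summable u := by
      have h1 : Summable fun n : ℕ => ((1 : ℝ) / 2) ^ n := summable_geometric_two
      refine (summable_congr_cofinite (g := u) ?_).mp h1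
      filter_upwards [(Set.finite_lt_nat (N + 1)).compl_mem_cofinite] with n hn
      have : ¬ n < N + 1 := hn
      simp only [u, if_neg this]
    have hd := Complex.differentiableOn_tsum_of_summable_norm (F := fun n w => term (co a n) n w)
      (U := Metric.ball (0 : ℂ) N) hu (fun n => (term_diff (co a n) n).differentiableOn)
      Metric.isOpen_ball (by
        intro n w hw
        have hw' : ‖w‖ < N := by simpa using hw
        by_cases hn : n < N + 1
        · simp only [u, if_pos hn]
          exact hC n w (by simpa using hw'.le)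
        · simp only [u, if_neg hn]
          apply term_bound
          have : ((N + 1 : ℕ) : ℝ) ≤ n := by exact_mod_cast not_lt.mp hn
          push_cast at this
          linarith)
    apply (hd z _).differentiableAt (Metric.isOpen_ball.mem_nhds _)
    · simp; linarith
    · simp; linarith
  · intro n
    have h1 : ∀ m, m ∉ range (n + 1) → term (co a m) m (n : ℂ) = 0 := by
      intro m hm
      rw [mem_range, not_lt] at hm
      exact term_zero _ (by omega)
    show ∑' m, term (co a m) m (n : ℂ) = a n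
    rw [tsum_eq_sum h1, sum_range_succ, ← S_eq, term_self, co]
    rw [div_mul_cancel₀ _ (Q_ne n)]
    ring

end Pool.Agent.Q184.Interp
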