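import Mathlib

/-!
Osgood's lemma: complex differentiable functions of several variables are analytic (the proof is the
one of the starting library, `Pool.Agent.FinVol2.WA.analyticAt_of_differentiable`).
-/

set_option autoImplicit false
open Matrix MeasureTheory Complex Topology Filter
open scoped ContDiff ComplexConjugate ComplexOrder ENNReal

namespace Pool.Agent.Q184.Osg

theorem torus_cauchy : ∀ (k : ℕ) (c : Fin k → ℂ) (R : ℝ), 0 < R → ∀ (f : (Fin k → ℂ) → ℂ),
    (∀ z : Fin k → ℂ, (∀ i, z i ∈ Metric.closedBall (c i) R) → DifferentiableAt ℂ f z) →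
    ∀ z : Fin k → ℂ, (∀ i, z i ∈ Metric.ball (c i) R) →
    (∯ ζ in T(c, fun _ => R), (∏ i, (ζ i - z i)⁻¹) * f ζ) = (2 * Real.pi * I) ^ k * f z := by
  intro k
  induction k with
  | zero =>
    intro c R hR f hf z hz
    rw [torusIntegral_dim0]
    have : c = z := Subsingleton.elim _ _
    simp [this]
  | succ k ih =>
    intro c R hR f hf z hz
    have hint : TorusIntegrable (fun ζ => (∏ i, (ζ i - z i)⁻¹) * f ζ) c (fun _ => R) := by
      unfold TorusIntegrable
      refine ContinuousOn.integrableOn_compact isCompact_Icc ?_
      intro θ hθ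
      have hm : ∀ i, torusMap c (fun _ => R) θ i ∈ Metric.sphere (c i) R := by
        intro i
        simp [torusMap, abs_of_pos hR, Complex.norm_exp]
      have hd := hf (torusMap c (fun _ => R) θ) (fun i => Metric.sphere_subset_closedBall (hm i))
      have hcm : Continuous (torusMap c (fun _ => R)) := by
        unfold torusMap
        fun_prop
      refine ContinuousAt.continuousWithinAt ?_
      refine ContinuousAt.mul ?_ (hd.continuousAt.comp hcm.continuousAt)
      refine tendsto_finsetProd _ fun i _ => ?_
      refine ContinuousAt.inv₀ ?_ ?_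
      · exact (((continuous_apply i).comp hcm).sub continuous_const).continuousAt
      · intro h0
        have h1 := hm i
        have h2 := hz i
        rw [sub_eq_zero.1 h0] at h1
        rw [Metric.mem_sphere] at h1
        rw [Metric.mem_ball] at h2
        linarith
    rw [torusIntegral_succ hint]
    have hone : (∮ x in C(c 0, R), (x - z 0)⁻¹ • f (Fin.cons x (Fin.tail z))) =
        (2 * Real.pi * I : ℂ) • f (Fin.cons (z 0) (Fin.tail z)) := by
      refine DiffContOnCl.circleIntegral_sub_inv_smul ?_ (hz 0)
      refine DifferentiableOn.diffContOnCl_ball (U := Metric.closedBall (c 0) R) ?_ subset_rfl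
      intro x hx
      refine DifferentiableAt.differentiableWithinAt ?_
      have h1 : DifferentiableAt ℂ f (Fin.cons x (Fin.tail z)) := by
        apply hf
        intro i
        refine Fin.cases ?_ (fun j => ?_) i
        · simpa using hx
        · simpa [Fin.tail] using Metric.ball_subset_closedBall (hz j.succ)
      refine h1.comp x ?_
      rw [differentiableAt_pi]
      intro i
      refine Fin.cases ?_ (fun j => ?_) i
      · simp
      · simp
    rw [Fin.cons_self_tail] at hone
    have hcongr : (∮ x in C(c 0, R), ∯ y in T(c ∘ Fin.succ, (fun _ => R) ∘ Fin.succ),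
        (∏ i, ((Fin.cons x y : Fin (k + 1) → ℂ) i - z i)⁻¹) * f (Fin.cons x y)) =
        ∮ x in C(c 0, R), (2 * Real.pi * I : ℂ) ^ k • ((x - z 0)⁻¹ • f (Fin.cons x (Fin.tail z))) := by
      refine circleIntegral.integral_congr hR.le ?_
      intro x hx
      simp only
      have hi := ih (c ∘ Fin.succ) R hR (fun y => f (Fin.cons x y)) ?_ (Fin.tail z) ?_
      · have e1 : ∀ y : Fin k → ℂ, (∏ i, ((Fin.cons x y : Fin (k + 1) → ℂ) i - z i)⁻¹) * f (Fin.cons x y) =
            (x - z 0)⁻¹ * ((∏ i, (y i - Fin.tail z i)⁻¹) * f (Fin.cons x y)) := by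
          intro y
          rw [Fin.prod_univ_succ]
          simp only [Fin.cons_zero, Fin.cons_succ, Fin.tail]
          ring
        simp_rw [e1]
        rw [torusIntegral_const_mul]
        have e2 : ((fun _ => R) ∘ Fin.succ : Fin k → ℝ) = fun _ => R := rfl
        rw [e2, hi]
        simp only [smul_eq_mul]
        ring
      · intro y hy
        have h1 : DifferentiableAt ℂ f (Fin.cons x y) := by
          apply hf
          intro i
          refine Fin.cases ?_ (fun j => ?_) i
          · simpa using Metric.sphere_subset_closedBall hx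
          · simpa using hy j
        refine h1.comp y ?_
        rw [differentiableAt_pi]
        intro i
        refine Fin.cases ?_ (fun j => ?_) i
        · simp
        · simpa using differentiableAt_apply j y
      · intro i
        exact hz i.succ
    refine hcongr.trans ?_
    rw [circleIntegral.integral_smul, hone]
    simp only [smul_eq_mul]
    ring

theorem analyticAt_of_differentiable (k : ℕ) (c : Fin k → ℂ) (R : ℝ) (hR : 0 < R) (f : (Fin k → ℂ) → ℂ)
    (hf : ∀ z : Fin k → ℂ, (∀ i, z i ∈ Metric.closedBall (c i) R) → DifferentiableAt ℂ f z) :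
    AnalyticAt ℂ f c := by
  classical
  -- the compact parameter space
  let K : Set (Fin k → ℝ) := Set.Icc 0 (fun _ => 2 * Real.pi)
  have : CompactSpace K := isCompact_iff_compactSpace.1 isCompact_Icc
  have hcm : Continuous (torusMap c (fun _ => R)) := by
    unfold torusMap
    fun_prop
  let A : Fin k → C(K, ℂ) := fun i => ⟨fun θ => torusMap c (fun _ => R) θ.1 i, by fun_prop⟩
  have hm : ∀ (θ : Fin k → ℝ) i, torusMap c (fun _ => R) θ i ∈ Metric.sphere (c i) R := by
    intro θ i
    simp [torusMap, abs_of_pos hR, Complex.norm_exp]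
  let G : (Fin k → ℂ) → C(K, ℂ) := fun z => ∏ i, Ring.inverse (A i - z i • 1)
  have hG : AnalyticAt ℂ G c := by
    refine Finset.analyticAt_fun_prod _ fun i _ => ?_
    have hu : IsUnit (A i - c i • 1) := by
      rw [ContinuousMap.isUnit_iff_forall_ne_zero]
      intro θ h0
      have h1 := hm θ.1 i
      have h2 : torusMap c (fun _ => R) θ.1 i - c i = 0 := by simpa [A] using h0
      rw [sub_eq_zero.1 h2, Metric.mem_sphere, dist_self] at h1
      linarith
    obtain ⟨u, hu⟩ := hu
    have h1 : AnalyticAt ℂ (fun z : Fin k → ℂ => A i - z i • (1 : C(K, ℂ))) c := by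
      refine analyticAt_const.sub ?_
      refine AnalyticAt.smul (f := fun z : Fin k → ℂ => z i) (g := fun _ => (1 : C(K, ℂ))) ?_ analyticAt_const
      exact (ContinuousLinearMap.proj (R := ℂ) (φ := fun _ : Fin k => ℂ) i).analyticAt c
    have h2 : AnalyticAt ℂ (Ring.inverse : C(K, ℂ) → C(K, ℂ)) (A i - c i • 1) := by
      rw [← hu]
      exact analyticAt_inverse u
    exact AnalyticAt.fun_comp (f := fun z : Fin k → ℂ => A i - z i • (1 : C(K, ℂ))) h2 h1
  -- the weight
  let w : (Fin k → ℝ) → ℂ := fun θ => (∏ i, (R : ℂ) * Complex.exp (θ i * I) * I) * f (torusMap c (fun _ => R) θ)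
  have hw : Continuous w := by
    refine Continuous.mul (by fun_prop) ?_
    rw [continuous_iff_continuousAt]
    intro θ
    exact (hf _ (fun i => Metric.sphere_subset_closedBall (hm θ i))).continuousAt.comp hcm.continuousAt
  have : IsFiniteMeasure (Measure.comap (Subtype.val : K → (Fin k → ℝ)) volume) := by
    constructor
    rw [(MeasurableEmbedding.subtype_coe measurableSet_Icc).comap_apply]
    simp only [Set.image_univ, Subtype.range_coe_subtype]
    exact isCompact_Icc.measure_lt_top
  have hKi : ∀ φ : C(K, ℂ), Integrable (fun θ : K => φ θ * w θ)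
      (Measure.comap (Subtype.val : K → (Fin k → ℝ)) volume) := fun φ =>
    (φ.continuous.mul (hw.comp continuous_subtype_val)).integrable_of_hasCompactSupport
      (HasCompactSupport.of_compactSpace _)
  let L : C(K, ℂ) →L[ℂ] ℂ := LinearMap.mkContinuous
    { toFun := fun φ => ∫ θ : K, φ θ * w θ ∂(Measure.comap (Subtype.val : K → (Fin k → ℝ)) volume)
      map_add' := fun φ ψ => by
        simp only [ContinuousMap.add_apply, add_mul]
        exact integral_add (hKi φ) (hKi ψ)
      map_smul' := fun a φ => by
        simp only [ContinuousMap.smul_apply, smul_eq_mul, mul_assoc, RingHom.id_apply]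
        exact integral_const_mul _ _ }
    (∫ θ : K, ‖w θ‖ ∂(Measure.comap (Subtype.val : K → (Fin k → ℝ)) volume)) (by
      intro φ
      simp only [LinearMap.coe_mk, AddHom.coe_mk]
      refine (norm_integral_le_integral_norm _).trans ?_
      rw [mul_comm, ← integral_const_mul]
      refine integral_mono_ae (hKi φ).norm ?_ ?_
      · have := (hKi 1).norm
        simp only [ContinuousMap.one_apply, one_mul] at this
        exact this.const_mul _
      · refine ae_of_all _ fun θ => ?_
        simp only [norm_mul]
        exact mul_le_mul_of_nonneg_right (φ.norm_coe_le_norm θ) (norm_nonneg _))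
  have hLG : AnalyticAt ℂ (fun z => (2 * Real.pi * I : ℂ)⁻¹ ^ k * L (G z)) c :=
    analyticAt_const.mul ((L.analyticAt _).comp hG)
  refine hLG.congr ?_
  have hev : ∀ᶠ z in 𝓝 c, ∀ i, z i ∈ Metric.ball (c i) R := by
    rw [eventually_all]
    intro i
    exact (continuous_apply i).continuousAt.eventually (Metric.ball_mem_nhds _ hR)
  filter_upwards [hev] with z hz
  have h1 := torus_cauchy k c R hR f hf z hz
  have h2 : L (G z) = ∯ ζ in T(c, fun _ => R), (∏ i, (ζ i - z i)⁻¹) * f ζ := by
    change (∫ θ : K, G z θ * w θ ∂(Measure.comap (Subtype.val : K → (Fin k → ℝ)) volume)) = _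
    have h3 : ∀ θ : K, G z θ * w θ = (fun θ : Fin k → ℝ => (∏ i, (R : ℂ) * Complex.exp (θ i * I) * I) •
        ((∏ i, (torusMap c (fun _ => R) θ i - z i)⁻¹) * f (torusMap c (fun _ => R) θ))) θ.1 := by
      intro θ
      have h4 : G z θ = ∏ i, (torusMap c (fun _ => R) θ.1 i - z i)⁻¹ := by
        simp only [G, ContinuousMap.coe_prod, Finset.prod_apply]
        refine Finset.prod_congr rfl fun i _ => ?_
        have hu : IsUnit (A i - z i • (1 : C(K, ℂ))) := by
          rw [ContinuousMap.isUnit_iff_forall_ne_zero]
          intro θ' h0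
          have h1 := hm θ'.1 i
          have h2 : torusMap c (fun _ => R) θ'.1 i - z i = 0 := by simpa [A] using h0
          have h3 := hz i
          rw [sub_eq_zero.1 h2, Metric.mem_sphere] at h1
          rw [Metric.mem_ball] at h3
          linarith
        have h5 := congrArg (fun φ : C(K, ℂ) => φ θ) (Ring.mul_inverse_cancel _ hu)
        simp only [ContinuousMap.mul_apply, ContinuousMap.one_apply] at h5
        have h6 : (A i - z i • (1 : C(K, ℂ))) θ = torusMap c (fun _ => R) θ.1 i - z i := by
          simp [A]
        rw [h6] at h5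
        exact eq_inv_of_mul_eq_one_right h5
      simp only [h4, w, smul_eq_mul]
      ring
    rw [integral_congr_ae (ae_of_all _ h3)]
    exact integral_subtype_comap (s := K) measurableSet_Icc (fun θ : Fin k → ℝ =>
      (∏ i, (R : ℂ) * Complex.exp (θ i * I) * I) •
        ((∏ i, (torusMap c (fun _ => R) θ i - z i)⁻¹) * f (torusMap c (fun _ => R) θ)))
  rw [h2, h1, ← mul_assoc, ← mul_pow, inv_mul_cancel₀ (by simp [Real.pi_ne_zero]), one_pow, one_mul]

end Pool.Agent.Q184.Osg
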