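import Mathlib
import Pool.Agent.Q184.Interp

/-!
Holomorphic automorphisms, tame sets, complete holomorphic vector fields, flexibility and the density
property for open subsets of a complex vector space, and the example `D × ℂ²`.
-/

set_option autoImplicit false

namespace Pool.Agent.Q184.Tame

open Set

section defs

variable {E : Type} [NormedAddCommGroup E] [NormedSpace ℂ E]

/-- `F` restricts to a holomorphic automorphism of the open set `X`. -/
def IsAut (X : Set E) (F : E → E) : Prop :=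
  DifferentiableOn ℂ F X ∧ MapsTo F X X ∧ ∃ G : E → E, DifferentiableOn ℂ G X ∧ MapsTo G X X ∧
    (∀ x ∈ X, G (F x) = x) ∧ ∀ x ∈ X, F (G x) = x

/-- The holomorphic automorphisms act transitively on `X`. -/
def AutTransitive (X : Set E) : Prop := ∀ x ∈ X, ∀ y ∈ X, ∃ F : E → E, IsAut X F ∧ F x = y

/-- The open set `X` is holomorphically convex: the hull of each compact subset of `X` with respect to
the holomorphic functions on `X` is compact. For a nonempty open subset of `ℂⁿ` this says that it is a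
Stein manifold (a domain of holomorphy). -/
def HoloConvex (X : Set E) : Prop :=
  ∀ K ⊆ X, IsCompact K →
    IsCompact {x ∈ X | ∀ f : E → ℂ, DifferentiableOn ℂ f X → ∃ y ∈ K, ‖f x‖ ≤ ‖f y‖}

/-- `A` is a tame set in `X`: an infinite subset of `X`, closed in `X` and discrete, such that every
injective map `A → A` is the restriction of an automorphism of `X`. -/
def IsTame (X A : Set E) : Prop :=
  A ⊆ X ∧ A.Infinite ∧ (∃ C : Set E, IsClosed C ∧ A = C ∩ X) ∧ DiscreteTopology A ∧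
    ∀ f : A → A, Function.Injective f → ∃ F : E → E, IsAut X F ∧ ∀ a : A, F a = f a

/-- `V` is a complete holomorphic vector field on `X`: all its integral curves are defined for all
complex times. -/
def IsCompleteField (X : Set E) (V : E → E) : Prop :=
  DifferentiableOn ℂ V X ∧ ∀ x ∈ X, ∃ γ : ℂ → E, γ 0 = x ∧ (∀ t, γ t ∈ X) ∧
    ∀ t, HasDerivAt γ (V (γ t)) t

/-- `X` is holomorphically flexible: the values of the complete holomorphic vector fields span the
tangent space at every point. -/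
def Flexible (X : Set E) : Prop :=
  ∀ x ∈ X, Submodule.span ℂ {v : E | ∃ V : E → E, IsCompleteField X V ∧ V x = v} = ⊤

/-- The Lie algebra generated by the complete holomorphic vector fields on `X`. -/
inductive InLie (X : Set E) : (E → E) → Prop
  | complete (V : E → E) : IsCompleteField X V → InLie X V
  | zero : InLie X 0
  | add (V W : E → E) : InLie X V → InLie X W → InLie X (V + W)
  | smul (c : ℂ) (V : E → E) : InLie X V → InLie X (c • V)
  | bracket (V W : E → E) : InLie X V → InLie X W →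
      InLie X (fun x => fderiv ℂ W x (V x) - fderiv ℂ V x (W x))

/-- The density property: every holomorphic vector field on `X` is a limit, uniformly on compact
subsets of `X`, of elements of the Lie algebra generated by the complete ones. -/
def DensityProperty (X : Set E) : Prop :=
  ∀ V : E → E, DifferentiableOn ℂ V X → ∀ K ⊆ X, IsCompact K → ∀ ε : ℝ, 0 < ε →
    ∃ W : E → E, InLie X W ∧ ∀ x ∈ K, ‖V x - W x‖ < ε

theorem IsAut.comp {X : Set E} {F G : E → E} (hF : IsAut X F) (hG : IsAut X G) :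
    IsAut X (fun x => F (G x)) := by
  obtain ⟨f1, f2, F', f3, f4, f5, f6⟩ := hF
  obtain ⟨g1, g2, G', g3, g4, g5, g6⟩ := hG
  refine ⟨f1.comp g1 g2, f2.comp g2, fun x => G' (F' x), g3.comp f3 f4, g4.comp f4, ?_, ?_⟩
  · intro x hx
    show G' (F' (F (G x))) = x
    rw [f5 _ (g2 hx), g5 x hx]
  · intro x hx
    show F (G (G' (F' x))) = x
    rw [g6 _ (f4 hx), f6 x hx]

theorem IsAut.inv {X : Set E} {F : E → E} (hF : IsAut X F) :
    ∃ G : E → E, IsAut X G ∧ (∀ x ∈ X, G (F x) = x) ∧ ∀ x ∈ X, F (G x) = x := by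
  obtain ⟨f1, f2, F', f3, f4, f5, f6⟩ := hF
  exact ⟨F', ⟨f3, f4, F, f1, f2, f6, f5⟩, f5, f6⟩

end defs

/-! ### The example -/

/-- The product of the unit disc with `ℂ²`. -/
def XX : Set (ℂ × ℂ × ℂ) := {p | ‖p.1‖ < 1}

theorem XX_open : IsOpen XX := isOpen_lt (by fun_prop) continuous_const

theorem XX_connected : IsConnected XX := by
  have h : XX = (Metric.ball (0 : ℂ) 1) ×ˢ (univ : Set (ℂ × ℂ)) := by
    ext p
    simp [XX]
  rw [h]
  exact ((convex_ball _ _).isConnected ⟨0, by simp⟩).prod isConnected_univ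

/-- Moebius maps. -/
noncomputable def mob (a z : ℂ) : ℂ := (z - a) / (1 - (starRingEnd ℂ) a * z)

theorem mob_den {a z : ℂ} (ha : ‖a‖ < 1) (hz : ‖z‖ < 1) : 1 - (starRingEnd ℂ) a * z ≠ 0 := by
  intro h
  have h1 : (starRingEnd ℂ) a * z = 1 := by linear_combination -h
  have h2 : ‖(starRingEnd ℂ) a * z‖ = 1 := by rw [h1]; simp
  rw [norm_mul, RCLike.norm_conj] at h2
  have := mul_lt_one_of_nonneg_of_lt_one_left (norm_nonneg a) ha hz.le
  linarith

theorem mob_lt {a z : ℂ} (ha : ‖a‖ < 1) (hz : ‖z‖ < 1) : ‖mob a z‖ < 1 := by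
  unfold mob
  have hd := mob_den ha hz
  rw [norm_div, div_lt_one (norm_pos_iff.mpr hd)]
  have h1 : ‖z - a‖ ^ 2 < ‖1 - (starRingEnd ℂ) a * z‖ ^ 2 := by
    rw [← Complex.normSq_eq_norm_sq, ← Complex.normSq_eq_norm_sq]
    have h2 : Complex.normSq (1 - (starRingEnd ℂ) a * z) - Complex.normSq (z - a) =
        (1 - Complex.normSq a) * (1 - Complex.normSq z) := by
      simp only [Complex.normSq_apply]
      simp
      ring
    have h3 : 0 < 1 - Complex.normSq a := by
      rw [Complex.normSq_eq_norm_sq]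
      nlinarith [norm_nonneg a]
    have h4 : 0 < 1 - Complex.normSq z := by
      rw [Complex.normSq_eq_norm_sq]
      nlinarith [norm_nonneg z]
    nlinarith [mul_pos h3 h4]
  exact lt_of_pow_lt_pow_left₀ 2 (norm_nonneg _) h1

theorem mob_inv {a z : ℂ} (ha : ‖a‖ < 1) (hz : ‖z‖ < 1) : mob (-a) (mob a z) = z := by
  have hd := mob_den ha hz
  have ha' : ‖-a‖ < 1 := by rwa [norm_neg]
  have hd2 := mob_den ha' (mob_lt ha hz)
  unfold mob at hd2 ⊢
  rw [div_eq_iff hd2]
  rw [map_neg]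
  set d := 1 - (starRingEnd ℂ) a * z with hdd
  have h1 : (z - a) / d - -a = ((z - a) + a * d) / d := by field_simp; ring
  have h2 : z * (1 - -(starRingEnd ℂ) a * ((z - a) / d)) =
      (z * (d + (starRingEnd ℂ) a * (z - a))) / d := by field_simp; ring
  rw [h1, h2]
  congr 1
  rw [hdd]
  ring

theorem mob_self (a : ℂ) : mob a a = 0 := by simp [mob]

/-- The automorphism moving `x` to the origin. -/
noncomputable def mv (x p : ℂ × ℂ × ℂ) : ℂ × ℂ × ℂ := (mob x.1 p.1, p.2 - x.2)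

theorem mv_diff {x : ℂ × ℂ × ℂ} (hx : x ∈ XX) : DifferentiableOn ℂ (mv x) XX := by
  intro p hp
  have h := mob_den (a := x.1) (z := p.1) hx hp
  unfold mv mob
  apply DifferentiableAt.differentiableWithinAt
  fun_prop (disch := exact h)

theorem mv_aut {x : ℂ × ℂ × ℂ} (hx : x ∈ XX) : IsAut XX (mv x) := by
  have hx' : (-x) ∈ XX := by
    show ‖(-x).1‖ < 1
    rw [Prod.fst_neg, norm_neg]
    exact hx
  have hmaps : ∀ y ∈ XX, MapsTo (mv y) XX XX := fun y hy p hp => mob_lt hy hp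
  refine ⟨mv_diff hx, hmaps x hx, mv (-x), mv_diff hx', hmaps _ hx', ?_, ?_⟩
  · intro p hp
    show (mob (-x.1) (mob x.1 p.1), (p.2 - x.2) - (-x.2)) = p
    rw [mob_inv hx hp]
    ext <;> simp
  · intro p hp
    show (mob x.1 (mob (-x.1) p.1), (p.2 - (-x.2)) - x.2) = p
    have h := mob_inv (a := -x.1) (z := p.1) (by rw [norm_neg]; exact hx) hp
    rw [neg_neg] at h
    rw [h]
    ext <;> simp

theorem mv_self (x : ℂ × ℂ × ℂ) : mv x x = 0 := by
  show (mob x.1 x.1, x.2 - x.2) = 0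
  rw [mob_self, sub_self]
  rfl

theorem XX_transitive : AutTransitive XX := by
  intro x hx y hy
  obtain ⟨G, hG, h1, _⟩ := (mv_aut hy).inv
  refine ⟨fun p => G (mv x p), hG.comp (mv_aut hx), ?_⟩
  show G (mv x x) = y
  rw [mv_self, ← mv_self y, h1 y hy]

theorem XX_holoConvex : HoloConvex XX := by
  intro K hK hKc
  rcases K.eq_empty_or_nonempty with rfl | hne
  · have : {x ∈ XX | ∀ f : ℂ × ℂ × ℂ → ℂ, DifferentiableOn ℂ f XX →
        ∃ y ∈ (∅ : Set (ℂ × ℂ × ℂ)), ‖f x‖ ≤ ‖f y‖} = ∅ := by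
      ext x
      simp only [mem_ofPred_eq, mem_empty_iff_false, false_and, exists_false, iff_false, not_and,
        not_forall]
      intro _
      exact ⟨fun _ => 0, differentiableOn_const 0, not_false⟩
    rw [this]
    exact isCompact_empty
  · -- the coordinate bounds
    obtain ⟨a, haK, ha⟩ := hKc.exists_isMaxOn hne
      (f := fun p : ℂ × ℂ × ℂ => ‖p.1‖) (by fun_prop)
    obtain ⟨b, hbK, hb⟩ := hKc.exists_isMaxOn hne
      (f := fun p : ℂ × ℂ × ℂ => ‖p.2.1‖) (by fun_prop)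
    obtain ⟨c, hcK, hc⟩ := hKc.exists_isMaxOn hne
      (f := fun p : ℂ × ℂ × ℂ => ‖p.2.2‖) (by fun_prop)
    let B : Set (ℂ × ℂ × ℂ) := (Metric.closedBall (0 : ℂ) ‖a.1‖) ×ˢ
      ((Metric.closedBall (0 : ℂ) ‖b.2.1‖) ×ˢ (Metric.closedBall (0 : ℂ) ‖c.2.2‖))
    have hBc : IsCompact B := (isCompact_closedBall _ _).prod
      ((isCompact_closedBall _ _).prod (isCompact_closedBall _ _))
    have hBX : B ⊆ XX := by
      intro p hp
      have h1 : ‖p.1‖ ≤ ‖a.1‖ := by simpa using hp.1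
      exact lt_of_le_of_lt h1 (hK haK)
    have hsub : {x ∈ XX | ∀ f : ℂ × ℂ × ℂ → ℂ, DifferentiableOn ℂ f XX →
        ∃ y ∈ K, ‖f x‖ ≤ ‖f y‖} ⊆ B := by
      rintro x ⟨hx, hf⟩
      refine ⟨?_, ?_, ?_⟩
      · obtain ⟨y, hy, hxy⟩ := hf (fun p => p.1) (by fun_prop)
        have := ha hy
        simp only [mem_ofPred_eq] at this
        simpa using hxy.trans this
      · obtain ⟨y, hy, hxy⟩ := hf (fun p => p.2.1) (by fun_prop)
        have := hb hy
        simp only [mem_ofPred_eq] at this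
        simpa using hxy.trans this
      · obtain ⟨y, hy, hxy⟩ := hf (fun p => p.2.2) (by fun_prop)
        have := hc hy
        simp only [mem_ofPred_eq] at this
        simpa using hxy.trans this
    -- closed in B
    have heq : {x ∈ XX | ∀ f : ℂ × ℂ × ℂ → ℂ, DifferentiableOn ℂ f XX →
        ∃ y ∈ K, ‖f x‖ ≤ ‖f y‖} = ⋂ f : {f : ℂ × ℂ × ℂ → ℂ // DifferentiableOn ℂ f XX},
          {x ∈ B | ∃ y ∈ K, ‖f.1 x‖ ≤ ‖f.1 y‖} := by
      apply Subset.antisymm
      · intro x hx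
        rw [mem_iInter]
        intro f
        exact ⟨hsub hx, hx.2 f.1 f.2⟩
      · intro x hx
        rw [mem_iInter] at hx
        refine ⟨hBX (hx ⟨fun _ => 0, differentiableOn_const 0⟩).1, fun f hf => (hx ⟨f, hf⟩).2⟩
    rw [heq]
    have hclosed : ∀ f : {f : ℂ × ℂ × ℂ → ℂ // DifferentiableOn ℂ f XX},
        IsClosed {x ∈ B | ∃ y ∈ K, ‖f.1 x‖ ≤ ‖f.1 y‖} := by
      rintro ⟨f, hf⟩
      obtain ⟨m, hmK, hm⟩ := hKc.exists_isMaxOn hne (f := fun p => ‖f p‖)
        ((hf.continuousOn.mono hK).norm)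
      have h1 : {x ∈ B | ∃ y ∈ K, ‖f x‖ ≤ ‖f y‖} = B ∩ (fun x => ‖f x‖) ⁻¹' (Iic ‖f m‖) := by
        ext x
        constructor
        · rintro ⟨h2, y, hy, h3⟩
          exact ⟨h2, h3.trans (hm hy)⟩
        · rintro ⟨h2, h3⟩
          exact ⟨h2, m, hmK, h3⟩
      show IsClosed {x ∈ B | ∃ y ∈ K, ‖f x‖ ≤ ‖f y‖}
      rw [h1]
      exact ((hf.continuousOn.mono hBX).norm).preimage_isClosed_of_isClosed hBc.isClosed isClosed_Iic
    refine hBc.of_isClosed_subset (isClosed_iInter hclosed) ?_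
    intro x hx
    rw [mem_iInter] at hx
    exact (hx ⟨fun _ => 0, differentiableOn_const 0⟩).1

/-! ### The tame set -/

/-- The points `(0, n, 0)`. -/
def pt (n : ℕ) : ℂ × ℂ × ℂ := (0, (n : ℂ), 0)

/-- The tame set. -/
def AA : Set (ℂ × ℂ × ℂ) := range pt

theorem pt_inj : Function.Injective pt := by
  intro n m h
  have h1 : (n : ℂ) = (m : ℂ) := congrArg (fun p => p.2.1) h
  exact_mod_cast h1

theorem sh_aut1 (h : ℂ → ℂ) (hh : Differentiable ℂ h) :
    IsAut XX (fun p => (p.1, p.2.1, p.2.2 + h p.2.1)) := by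
  refine ⟨by fun_prop, fun p hp => hp, fun p => (p.1, p.2.1, p.2.2 - h p.2.1), by fun_prop,
    fun p hp => hp, fun p _ => ?_, fun p _ => ?_⟩
  · ext <;> simp
  · ext <;> simp

theorem sh_aut2 (h : ℂ → ℂ) (hh : Differentiable ℂ h) :
    IsAut XX (fun p => (p.1, p.2.1 + h p.2.2, p.2.2)) := by
  refine ⟨by fun_prop, fun p hp => hp, fun p => (p.1, p.2.1 - h p.2.2, p.2.2), by fun_prop,
    fun p hp => hp, fun p _ => ?_, fun p _ => ?_⟩
  · ext <;> simp
  · ext <;> simp

theorem pt_norm (n m : ℕ) (h : n ≠ m) : 1 ≤ dist (pt n) (pt m) := by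
  have h1 : dist ((pt n).2.1) ((pt m).2.1) ≤ dist (pt n) (pt m) :=
    (le_max_left _ _).trans (le_max_right _ _)
  refine le_trans ?_ h1
  show 1 ≤ dist (n : ℂ) (m : ℂ)
  rw [dist_eq_norm]
  have h2 : ((n : ℂ) - (m : ℂ)) = (((n : ℤ) - (m : ℤ) : ℤ) : ℂ) := by push_cast; ring
  rw [h2, Complex.norm_intCast]
  have h3 : ((n : ℤ) - (m : ℤ)) ≠ 0 := by omega
  have h4 : 1 ≤ |(n : ℤ) - (m : ℤ)| := Int.one_le_abs h3
  exact_mod_cast h4

theorem AA_closed_discrete : IsClosed AA ∧ DiscreteTopology AA := by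
  have hpw : ∀ x ∈ AA, ∀ y ∈ AA, x ≠ y → 1 ≤ dist x y := by
    rintro _ ⟨n, rfl⟩ _ ⟨m, rfl⟩ h
    exact pt_norm n m (fun e => h (by rw [e]))
  constructor
  · apply Metric.isClosed_of_pairwise_le_dist (zero_lt_one : (0 : ℝ) < 1)
    intro x hx y hy hxy
    exact hpw x hx y hy hxy
  · apply DiscreteTopology.of_forall_le_dist (zero_lt_one : (0 : ℝ) < 1)
    intro x y hxy
    exact hpw x x.2 y y.2 (fun h => hxy (Subtype.ext h))

theorem AA_tame : IsTame XX AA := by
  refine ⟨?_, Set.infinite_range_of_injective pt_inj, ⟨AA, AA_closed_discrete.1, ?_⟩,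
    AA_closed_discrete.2, ?_⟩
  · rintro _ ⟨n, rfl⟩
    show ‖(0 : ℂ)‖ < 1
    simp
  · symm
    apply inter_eq_self_of_subset_left
    rintro _ ⟨n, rfl⟩
    show ‖(0 : ℂ)‖ < 1
    simp
  · intro f hf
    have hex : ∀ n : ℕ, ∃ m : ℕ, pt m = f ⟨pt n, n, rfl⟩ := fun n => (f ⟨pt n, n, rfl⟩).2
    choose g hg using hex
    have hginj : Function.Injective g := by
      intro n m h
      have h1 : f ⟨pt n, n, rfl⟩ = f ⟨pt m, m, rfl⟩ := Subtype.ext (by rw [← hg, ← hg, h])
      have h2 := hf h1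
      exact pt_inj (congrArg Subtype.val h2)
    obtain ⟨h1, h1d, h1v⟩ := Pool.Agent.Q184.Interp.exists_interp (fun n => (g n : ℂ))
    obtain ⟨h2, h2d, h2v⟩ := Pool.Agent.Q184.Interp.exists_interp
      (fun m : ℕ => (m : ℂ) - ((Function.invFun g m : ℕ) : ℂ))
    refine ⟨fun p => (fun q : ℂ × ℂ × ℂ => (q.1, q.2.1, q.2.2 + (-q.2.1)))
      ((fun q : ℂ × ℂ × ℂ => (q.1, q.2.1 + h2 q.2.2, q.2.2))
        ((fun q : ℂ × ℂ × ℂ => (q.1, q.2.1, q.2.2 + h1 q.2.1)) p)), ?_, ?_⟩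
    · exact (sh_aut1 (fun z => -z) (by fun_prop)).comp ((sh_aut2 h2 h2d).comp (sh_aut1 h1 h1d))
    · rintro ⟨_, n, rfl⟩
      rw [← hg n]
      have e : Function.invFun g (g n) = n := Function.leftInverse_invFun hginj n
      show ((0 : ℂ), (n : ℂ) + h2 (0 + h1 (n : ℂ)),
        (0 + h1 (n : ℂ)) + -((n : ℂ) + h2 (0 + h1 (n : ℂ)))) = ((0 : ℂ), (g n : ℂ), (0 : ℂ))
      rw [h1v, zero_add, h2v, e]
      ext <;> simp

/-! ### Complete fields are vertical -/

theorem complete_vertical (V : ℂ × ℂ × ℂ → ℂ × ℂ × ℂ) (hV : IsCompleteField XX V)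
    (x : ℂ × ℂ × ℂ) (hx : x ∈ XX) : (V x).1 = 0 := by
  obtain ⟨γ, h0, hmem, hder⟩ := hV.2 x hx
  have h1 : ∀ t, HasDerivAt (fun t => (γ t).1) ((V (γ t)).1) t := fun t => (hder t).fst
  have h2 : Differentiable ℂ (fun t => (γ t).1) := fun t => (h1 t).differentiableAt
  have h3 : Bornology.IsBounded (range fun t => (γ t).1) := by
    refine (Metric.isBounded_ball (x := (0 : ℂ)) (r := 1)).subset ?_
    rintro _ ⟨t, rfl⟩
    have h7 : ‖(γ t).1‖ < 1 := hmem t
    simpa using h7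
  have h4 : ∀ s t, (γ s).1 = (γ t).1 := fun s t => h2.apply_eq_apply_of_bounded h3 s t
  have h5 : HasDerivAt (fun t => (γ t).1) 0 0 := by
    have : (fun t => (γ t).1) = fun _ => (γ 0).1 := funext fun t => h4 t 0
    rw [this]
    exact hasDerivAt_const _ _
  have h6 := (h1 0).unique h5
  rwa [h0] at h6

theorem lie_vertical (V : ℂ × ℂ × ℂ → ℂ × ℂ × ℂ) (hV : InLie XX V) :
    ∀ x ∈ XX, (V x).1 = 0 := by
  induction hV with
  | complete V h =>
    intro x hx
    exact complete_vertical V h x hx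
  | zero =>
    intro x _
    rfl
  | add V W _ _ ihV ihW =>
    intro x hx
    show (V x).1 + (W x).1 = 0
    rw [ihV x hx, ihW x hx, add_zero]
  | smul c V _ ihV =>
    intro x hx
    show c • (V x).1 = 0
    rw [ihV x hx, smul_zero]
  | bracket V W _ _ ihV ihW =>
    intro x hx
    have key : ∀ U : ℂ × ℂ × ℂ → ℂ × ℂ × ℂ, (∀ x ∈ XX, (U x).1 = 0) →
        ∀ v, (fderiv ℂ U x v).1 = 0 := by
      intro U hU v
      by_cases hd : DifferentiableAt ℂ U x
      · have h1 : HasFDerivAt (fun y => (U y).1)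
            ((ContinuousLinearMap.fst ℂ ℂ (ℂ × ℂ)).comp (fderiv ℂ U x)) x :=
          hd.hasFDerivAt.fst
        have h2 : (fun y => (U y).1) =ᶠ[nhds x] fun _ => 0 := by
          filter_upwards [XX_open.mem_nhds hx] with y hy
          exact hU y hy
        have h3 : HasFDerivAt (fun y => (U y).1) (0 : ℂ × ℂ × ℂ →L[ℂ] ℂ) x :=
          (hasFDerivAt_const (0 : ℂ) x).congr_of_eventuallyEq h2
        have h4 := h1.unique h3
        have h5 := congrArg (fun (L : ℂ × ℂ × ℂ →L[ℂ] ℂ) => L v) h4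
        simpa using h5
      · rw [fderiv_zero_of_not_differentiableAt hd]
        rfl
    show (fderiv ℂ W x (V x)).1 - (fderiv ℂ V x (W x)).1 = 0
    rw [key W ihW, key V ihV, sub_self]

theorem XX_not_flexible : ¬ Flexible XX := by
  intro h
  have h0 : (0 : ℂ × ℂ × ℂ) ∈ XX := by
    show ‖(0 : ℂ)‖ < 1
    simp
  have h1 := h 0 h0
  have h2 : Submodule.span ℂ {v : ℂ × ℂ × ℂ | ∃ V : ℂ × ℂ × ℂ → ℂ × ℂ × ℂ,
      IsCompleteField XX V ∧ V 0 = v} ≤ LinearMap.ker (LinearMap.fst ℂ ℂ (ℂ × ℂ)) := by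
    rw [Submodule.span_le]
    rintro v ⟨V, hV, rfl⟩
    exact complete_vertical V hV 0 h0
  rw [h1, top_le_iff] at h2
  have h3 : ((1, 0) : ℂ × ℂ × ℂ) ∈ LinearMap.ker (LinearMap.fst ℂ ℂ (ℂ × ℂ)) := by
    rw [h2]; trivial
  have h4 : (1 : ℂ) = 0 := h3
  exact one_ne_zero h4

theorem XX_not_density : ¬ DensityProperty XX := by
  intro h
  have h0 : (0 : ℂ × ℂ × ℂ) ∈ XX := by
    show ‖(0 : ℂ)‖ < 1
    simp
  obtain ⟨W, hW, h1⟩ := h (fun _ => (1, 0)) (differentiableOn_const _) {0} (by simpa using h0)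
    isCompact_singleton 1 one_pos
  have h2 := h1 0 rfl
  have h3 := lie_vertical W hW 0 h0
  have h4 : ‖((1 : ℂ) - (W 0).1)‖ ≤ ‖((1, 0) : ℂ × ℂ × ℂ) - W 0‖ := by
    exact norm_fst_le (((1, 0) : ℂ × ℂ × ℂ) - W 0)
  rw [h3, sub_zero, norm_one] at h4
  linarith

end Pool.Agent.Q184.Tame
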